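import Pool.Agent.Q297.SO.Rigid
import Pool.Agent.Q297.IF.Basic

/-!
Concrete permutations of the circle.
-/

namespace Pool.Agent.Q297.SO

open Pool.Agent.Q297.IF Filter Topology Set

theorem f01 : Fact ((0 : ℝ) < 1) := ⟨one_pos⟩

/-- The point `1/2`. -/
noncomputable def hh : SS := ((1 / 2 : ℝ) : AddCircle (1 : ℝ))

/-- The representative in `[0, 1)`. -/
noncomputable def rp (x : SS) : ℝ :=
  haveI := f01
  ((AddCircle.equivIco (1 : ℝ) 0 x : Ico (0 : ℝ) (0 + 1)) : ℝ)

theorem rp_mem (x : SS) : 0 ≤ rp x ∧ rp x < 1 := by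
  have := f01
  have h : rp x ∈ Ico (0 : ℝ) (0 + 1) := (AddCircle.equivIco (1 : ℝ) 0 x).2
  rw [zero_add] at h
  exact ⟨h.1, h.2⟩

theorem coe_rp (x : SS) : ((rp x : ℝ) : AddCircle (1 : ℝ)) = x := by
  have := f01
  exact (AddCircle.equivIco (1 : ℝ) 0).symm_apply_apply x

theorem rp_coe {r : ℝ} (h0 : 0 ≤ r) (h1 : r < 1) : rp ((r : ℝ) : AddCircle (1 : ℝ)) = r := by
  have := f01
  have h : r ∈ Ico (0 : ℝ) (0 + 1) := ⟨h0, by simpa using h1⟩
  unfold rp
  rw [AddCircle.equivIco_coe_eq h]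

theorem coe_one : ((1 : ℝ) : AddCircle (1 : ℝ)) = 0 := AddCircle.coe_period 1

theorem rp_add_hh (x : SS) : rp (x + hh) = if rp x < 1 / 2 then rp x + 1 / 2 else rp x - 1 / 2 := by
  obtain ⟨h0, h1⟩ := rp_mem x
  split_ifs with h
  · have e : x + hh = ((rp x + 1 / 2 : ℝ) : AddCircle (1 : ℝ)) := by
      conv_lhs => rw [← coe_rp x]
      rw [hh, ← AddCircle.coe_add]
    rw [e, rp_coe (by linarith) (by linarith)]
  · push Not at h
    have e : x + hh = ((rp x - 1 / 2 : ℝ) : AddCircle (1 : ℝ)) := by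
      conv_lhs => rw [← coe_rp x]
      rw [hh, ← AddCircle.coe_add]
      have : rp x + 1 / 2 = (rp x - 1 / 2) + 1 := by ring
      rw [this, AddCircle.coe_add, coe_one, add_zero]
    rw [e, rp_coe (by linarith) (by linarith)]

/-- The half containing a point. -/
noncomputable def hb (x : SS) : Bool := decide (rp x < 1 / 2)

theorem hb_add_hh (x : SS) : hb (x + hh) = !hb x := by
  unfold hb
  rw [rp_add_hh]
  obtain ⟨h0, h1⟩ := rp_mem x
  by_cases h : rp x < 1 / 2
  · have h2 : ¬ (rp x + 1 / 2 < 1 / 2) := by linarith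
    simp only [h, if_true, h2, decide_true, decide_false, Bool.not_true]
  · have h2 : rp x - 1 / 2 < 1 / 2 := by linarith
    simp only [h, if_false, h2, decide_true, decide_false, Bool.not_false]

theorem hh_add_hh : hh + hh = 0 := by
  rw [hh, ← AddCircle.coe_add]
  have : (1 / 2 + 1 / 2 : ℝ) = 1 := by norm_num
  rw [this, coe_one]

theorem two_torsion {z : SS} (h : z + z = 0) : z = 0 ∨ z = hh := by
  obtain ⟨h0, h1⟩ := rp_mem z
  by_cases hz : rp z < 1 / 2
  · left
    have e : z + z = ((rp z + rp z : ℝ) : AddCircle (1 : ℝ)) := by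
      conv_lhs => rw [← coe_rp z]
      rw [← AddCircle.coe_add]
    have e2 : rp (z + z) = rp z + rp z := by
      rw [e, rp_coe (by linarith) (by linarith)]
    have e3 : rp (0 : SS) = 0 := by
      have := rp_coe (r := 0) le_rfl one_pos
      rwa [AddCircle.coe_zero] at this
    rw [h, e3] at e2
    have e4 : rp z = 0 := by linarith
    rw [← coe_rp z, e4, AddCircle.coe_zero]
  · right
    push Not at hz
    have e : z + z = ((rp z + rp z - 1 : ℝ) : AddCircle (1 : ℝ)) := by
      conv_lhs => rw [← coe_rp z]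
      rw [← AddCircle.coe_add]
      have e0 : ((rp z + rp z - 1 : ℝ) : AddCircle (1 : ℝ)) =
          ((rp z + rp z : ℝ) : AddCircle (1 : ℝ)) := by
        rw [AddCircle.coe_sub, coe_one, sub_zero]
      rw [e0]
    have e2 : rp (z + z) = rp z + rp z - 1 := by
      rw [e, rp_coe (by linarith) (by linarith)]
    have e3 : rp (0 : SS) = 0 := by
      have := rp_coe (r := 0) le_rfl one_pos
      rwa [AddCircle.coe_zero] at this
    rw [h, e3] at e2
    have e4 : rp z = 1 / 2 := by linarith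
    rw [← coe_rp z, e4, hh]

theorem exists_half (y : SS) : ∃ x : SS, x + x = y := by
  refine ⟨((rp y / 2 : ℝ) : AddCircle (1 : ℝ)), ?_⟩
  rw [← AddCircle.coe_add]
  have : rp y / 2 + rp y / 2 = rp y := by ring
  rw [this, coe_rp]

/-- The circle is the union of two halves, each identified with the circle by doubling. -/
noncomputable def e2 : SS ≃ SS × Bool :=
  Equiv.ofBijective (fun x => (x + x, hb x)) (by
    constructor
    · intro x y h
      have h1 : x + x = y + y := congrArg Prod.fst h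
      have h2 : hb x = hb y := congrArg Prod.snd h
      have h3 : (x - y) + (x - y) = 0 := by
        have : (x - y) + (x - y) = (x + x) - (y + y) := by abel
        rw [this, h1, sub_self]
      rcases two_torsion h3 with h4 | h4
      · exact sub_eq_zero.mp h4
      · have h5 : x = y + hh := by rw [← h4]; abel
        rw [h5, hb_add_hh] at h2
        simp at h2
    · rintro ⟨y, b⟩
      obtain ⟨x, hx⟩ := exists_half y
      by_cases hb' : hb x = b
      · exact ⟨x, Prod.ext hx hb'⟩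
      · refine ⟨x + hh, Prod.ext ?_ ?_⟩
        · show x + hh + (x + hh) = y
          have : x + hh + (x + hh) = (x + x) + (hh + hh) := by abel
          rw [this, hh_add_hh, add_zero, hx]
        · show hb (x + hh) = b
          rw [hb_add_hh]
          cases hx' : hb x <;> cases b <;> simp_all)

theorem e2_apply (x : SS) : e2 x = (x + x, hb x) := rfl

/-- Rotation of both halves. -/
noncomputable def Rp (c : SS) : Equiv.Perm SS :=
  (e2.trans ((Equiv.addRight (c + c)).prodCongr (Equiv.refl Bool))).trans e2.symm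

theorem e2_Rp (c x : SS) : e2 (Rp c x) = (x + x + (c + c), hb x) := by
  show e2 (e2.symm _) = _
  rw [Equiv.apply_symm_apply]
  rfl

/-- The fixed point free model of the reflection. -/
noncomputable def Tp : Equiv.Perm SS :=
  (e2.trans ((Equiv.neg SS).prodCongr Equiv.boolNot)).trans e2.symm

theorem e2_Tp (x : SS) : e2 (Tp x) = (-(x + x), !hb x) := by
  show e2 (e2.symm _) = _
  rw [Equiv.apply_symm_apply]
  rfl

theorem Rp_dbl (c x : SS) : Rp c x + Rp c x = x + x + (c + c) := congrArg Prod.fst (e2_Rp c x)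
theorem Rp_hb (c x : SS) : hb (Rp c x) = hb x := congrArg Prod.snd (e2_Rp c x)
theorem Tp_dbl (x : SS) : Tp x + Tp x = -(x + x) := congrArg Prod.fst (e2_Tp x)
theorem Tp_hb (x : SS) : hb (Tp x) = !hb x := congrArg Prod.snd (e2_Tp x)

theorem ext2 {x y : SS} (h1 : x + x = y + y) (h2 : hb x = hb y) : x = y :=
  e2.injective (Prod.ext h1 h2)

theorem Tp_ne (x : SS) : Tp x ≠ x := by
  intro h
  have := Tp_hb x
  rw [h] at this
  cases hx : hb x <;> rw [hx] at this <;> simp at this

theorem Rp_comm (c d : SS) : Rp c * Rp d = Rp d * Rp c := by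
  ext x
  show Rp c (Rp d x) = Rp d (Rp c x)
  refine ext2 ?_ ?_
  · rw [Rp_dbl, Rp_dbl, Rp_dbl, Rp_dbl]
    abel
  · rw [Rp_hb, Rp_hb, Rp_hb, Rp_hb]

theorem Tp_Rp (c : SS) : Tp * Rp c * Tp⁻¹ = (Rp c)⁻¹ := by
  rw [mul_inv_eq_iff_eq_mul, eq_inv_mul_iff_mul_eq]
  ext x
  show Rp c (Tp (Rp c x)) = Tp x
  refine ext2 ?_ ?_
  · rw [Rp_dbl, Tp_dbl, Tp_dbl, Rp_dbl]
    abel
  · rw [Rp_hb, Tp_hb, Tp_hb, Rp_hb]

/-- Rotations. -/
def Rt (c : SS) : Equiv.Perm SS := Equiv.addRight c

theorem Rt_apply (c x : SS) : Rt c x = x + c := rfl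

theorem Rt_comm (c d : SS) : Rt c * Rt d = Rt d * Rt c := by
  ext x
  show x + d + c = x + c + d
  abel

/-- The reflection. -/
def Ng : Equiv.Perm SS := Equiv.neg SS

theorem Ng_apply (x : SS) : Ng x = -x := rfl

theorem Ng_Rt (c : SS) : Ng * Rt c * Ng⁻¹ = (Rt c)⁻¹ := by
  rw [mul_inv_eq_iff_eq_mul, eq_inv_mul_iff_mul_eq]
  ext x
  show -(x + c) + c = -x
  abel

/-! ### Local forms -/

theorem hb_loc {x : SS} (h0 : x ≠ 0) (h1 : x ≠ hh) : ∀ᶠ y in 𝓝 x, hb y = hb x := by
  have := f01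
  have hx : x ≠ ((0 : ℝ) : AddCircle (1 : ℝ)) := by
    rw [AddCircle.coe_zero]
    exact h0
  have hc : ContinuousAt rp x :=
    continuousAt_subtype_val.comp (AddCircle.continuousAt_equivIco (1 : ℝ) 0 hx)
  have hne : rp x ≠ 1 / 2 := by
    intro h
    apply h1
    rw [← coe_rp x, h, hh]
  rcases lt_or_gt_of_ne hne with h | h
  · filter_upwards [hc.eventually (gt_mem_nhds h)] with y hy
    unfold hb
    simp only [hy, h]
  · filter_upwards [hc.eventually (lt_mem_nhds h)] with y hy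
    unfold hb
    have e1 : ¬ rp y < 1 / 2 := not_lt.mpr hy.le
    have e2 : ¬ rp x < 1 / 2 := not_lt.mpr h.le
    simp only [e1, e2]

theorem Rp_eq (c x : SS) : Rp c x = if hb (x + c) = hb x then x + c else x + c + hh := by
  split_ifs with h
  · refine ext2 ?_ ?_
    · rw [Rp_dbl]
      abel
    · rw [Rp_hb, h]
  · refine ext2 ?_ ?_
    · rw [Rp_dbl]
      have : x + c + hh + (x + c + hh) = x + x + (c + c) + (hh + hh) := by abel
      rw [this, hh_add_hh, add_zero]
    · rw [Rp_hb, hb_add_hh]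
      cases h1 : hb (x + c) <;> cases h2 : hb x <;> simp_all

theorem Rp_iet (c : SS) : Rp c ∈ IETrep := by
  refine ⟨{0, hh, -c, hh - c}, by simp, ?_⟩
  intro x hx
  simp only [mem_insert_iff, mem_singleton_iff, not_or] at hx
  obtain ⟨a1, a2, a3, a4⟩ := hx
  have h1 := hb_loc a1 a2
  have h2 := hb_loc (x := x + c) (fun h => a3 (eq_neg_of_add_eq_zero_left h))
    (fun h => a4 (eq_sub_of_add_eq h))
  have hcont : Tendsto (fun y : SS => y + c) (𝓝 x) (𝓝 (x + c)) :=
    (continuous_add_const c).tendsto x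
  have h3 := hcont.eventually h2
  by_cases hc : hb (x + c) = hb x
  · refine ⟨c, Or.inl ?_⟩
    filter_upwards [h1, h3] with y e1 e2
    rw [Rp_eq, if_pos (by rw [e1, e2, hc])]
  · refine ⟨c + hh, Or.inl ?_⟩
    filter_upwards [h1, h3] with y e1 e2
    rw [Rp_eq, if_neg (by rw [e1, e2]; exact hc), add_assoc]

theorem Rt_iet (c : SS) : Rt c ∈ IETrep :=
  ⟨∅, finite_empty, fun _ _ => ⟨c, Or.inl (Eventually.of_forall fun _ => rfl)⟩⟩

theorem Ng_iet : Ng ∈ IETrep :=
  ⟨∅, finite_empty, fun _ _ => ⟨0, Or.inr (Eventually.of_forall fun y => by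
    rw [Ng_apply, add_zero])⟩⟩

theorem hb_neg {x : SS} (h0 : x ≠ 0) (h1 : x ≠ hh) : hb (-x) = !hb x := by
  obtain ⟨a0, a1⟩ := rp_mem x
  have hx0 : rp x ≠ 0 := by
    intro h
    apply h0
    rw [← coe_rp x, h, AddCircle.coe_zero]
  have hne : rp x ≠ 1 / 2 := by
    intro h
    apply h1
    rw [← coe_rp x, h, hh]
  have e : -x = ((1 - rp x : ℝ) : AddCircle (1 : ℝ)) := by
    rw [AddCircle.coe_sub, coe_one, coe_rp, zero_sub]
  have hpos : 0 < rp x := lt_of_le_of_ne a0 (Ne.symm hx0)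
  have e2 : rp (-x) = 1 - rp x := by
    rw [e, rp_coe (by linarith) (by linarith)]
  unfold hb
  rw [e2]
  rcases lt_or_gt_of_ne hne with h | h
  · have h2 : ¬ (1 - rp x < 1 / 2) := by linarith
    simp only [h, h2, decide_true, decide_false, Bool.not_true]
  · have h2 : 1 - rp x < 1 / 2 := by linarith
    have h3 : ¬ rp x < 1 / 2 := by linarith
    simp only [h3, h2, decide_true, decide_false, Bool.not_false]

theorem Tp_eq {x : SS} (h0 : x ≠ 0) (h1 : x ≠ hh) : Tp x = Ng x := by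
  refine ext2 ?_ ?_
  · rw [Tp_dbl, Ng_apply]
    abel
  · rw [Tp_hb, Ng_apply, hb_neg h0 h1]

/-! ### Freeness -/

theorem pz {A : Type*} [AddCommGroup A] {X : Type*} (π : X → A) (f : Equiv.Perm X) (w : A)
    (h : ∀ x, π (f x) = π x + w) (i : ℤ) (x : X) : π ((f ^ i) x) = π x + i • w := by
  have hn : ∀ (n : ℕ) (x : X), π ((f ^ n) x) = π x + n • w := by
    intro n
    induction n with
    | zero => intro x; simp
    | succ n ih =>
      intro x
      rw [pow_succ', Equiv.Perm.mul_apply, h, ih, succ_nsmul, add_assoc]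
  obtain ⟨n, rfl | rfl⟩ := i.eq_nat_or_neg
  · rw [zpow_natCast, hn, natCast_zsmul]
  · have h1 := hn n ((f ^ (-(n : ℤ))) x)
    rw [← zpow_natCast, ← Equiv.Perm.mul_apply, ← zpow_add, add_neg_cancel, zpow_zero,
      Equiv.Perm.one_apply] at h1
    rw [neg_smul, natCast_zsmul, h1]
    abel

/-- Two elements generating a free abelian group of rank two. -/
def Indep (c d : SS) : Prop := ∀ i j : ℤ, i • c + j • d = 0 → i = 0 ∧ j = 0

theorem Rt_free {c d : SS} (h : Indep c d) (i j : ℤ) (x : SS)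
    (hx : (Rt c ^ i) ((Rt d ^ j) x) = x) : i = 0 ∧ j = 0 := by
  have h1 := pz (fun x : SS => x) (Rt c) c (fun _ => rfl) i ((Rt d ^ j) x)
  have h2 := pz (fun x : SS => x) (Rt d) d (fun _ => rfl) j x
  rw [hx, h2] at h1
  refine h i j ?_
  have h3 : x + (i • c + j • d) = x + 0 := by
    rw [add_zero]
    conv_rhs => rw [h1]
    abel
  exact add_left_cancel h3

theorem Rp_free {c d : SS} (h : Indep c d) (i j : ℤ) (x : SS)
    (hx : (Rp c ^ i) ((Rp d ^ j) x) = x) : i = 0 ∧ j = 0 := by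
  have h1 := pz (fun x : SS => x + x) (Rp c) (c + c) (Rp_dbl c) i ((Rp d ^ j) x)
  have h2 := pz (fun x : SS => x + x) (Rp d) (d + d) (Rp_dbl d) j x
  rw [hx, h2] at h1
  have h4 : (2 * i) • c + (2 * j) • d = 0 := by
    have h3 : (x + x) + ((2 * i) • c + (2 * j) • d) = (x + x) + 0 := by
      rw [add_zero]
      conv_rhs => rw [h1]
      rw [smul_add, smul_add, two_mul, two_mul, add_smul, add_smul]
      abel
    exact add_left_cancel h3
  have h5 := h _ _ h4
  omega

theorem exists_indep : ∃ c d : SS, Indep c d := by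
  obtain ⟨c, hc⟩ : ∃ c : ℝ, c ∉ range (fun p : ℤ × ℤ => (p.1 : ℝ) / p.2) := by
    by_contra hh
    push Not at hh
    exact Cardinal.not_countable_real ((countable_range _).mono fun x _ => hh x)
  obtain ⟨d, hd⟩ : ∃ d : ℝ, d ∉ range (fun p : ℤ × ℤ × ℤ =>
      ((p.1 : ℝ) - p.2.1 * c) / p.2.2) := by
    by_contra hh
    push Not at hh
    exact Cardinal.not_countable_real ((countable_range _).mono fun x _ => hh x)
  refine ⟨((c : ℝ) : AddCircle (1 : ℝ)), ((d : ℝ) : AddCircle (1 : ℝ)), fun i j h => ?_⟩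
  have h1 : ((i * c + j * d : ℝ) : AddCircle (1 : ℝ)) = 0 := by
    rw [AddCircle.coe_add, ← h]
    congr 1
    · rw [← zsmul_eq_mul, AddCircle.coe_zsmul]
    · rw [← zsmul_eq_mul, AddCircle.coe_zsmul]
  rw [AddCircle.coe_eq_zero_iff] at h1
  obtain ⟨n, hn⟩ := h1
  have hn' : (n : ℝ) = i * c + j * d := by
    rw [← hn]
    simp
  have hj : j = 0 := by
    by_contra hj
    apply hd
    refine ⟨(n, i, j), ?_⟩
    have : (j : ℝ) ≠ 0 := by exact_mod_cast hj
    simp only
    rw [hn']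
    field_simp
    ring
  refine ⟨?_, hj⟩
  by_contra hi
  apply hc
  refine ⟨(n, i), ?_⟩
  have : (i : ℝ) ≠ 0 := by exact_mod_cast hi
  simp only
  rw [hn', hj]
  field_simp
  simp

end Pool.Agent.Q297.SO
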