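import Pool.Agent.Q297.SO.Conc
import Pool.Agent.Q297.IF.Card

/-!
A finitely generated solvable group of interval exchanges with flips that is not realizable.
-/

namespace Pool.Agent.Q297.SO

open Pool.Agent.Q297.IF Filter Topology Set
open scoped commutatorElement

/-- The group of all bijections of the circle that are continuous at all but finitely many
points, together with their inverses. -/
def PChat : Subgroup (Equiv.Perm SS) where
  carrier := {f | {x | ¬ ContinuousAt f x}.Finite ∧ {x | ¬ ContinuousAt f.symm x}.Finite}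
  mul_mem' := by
    rintro f g ⟨hf, hf'⟩ ⟨hg, hg'⟩
    constructor
    · refine (hg.union (hf.preimage g.injective.injOn)).subset ?_
      intro x hx
      by_contra hc
      simp only [mem_union, mem_preimage, mem_ofPred_eq, not_or, not_not] at hc
      exact hx (show ContinuousAt (fun y => f (g y)) x from
        ContinuousAt.comp (g := f) (f := g) hc.2 hc.1)
    · refine (hf'.union (hg'.preimage f.symm.injective.injOn)).subset ?_
      intro x hx
      by_contra hc
      simp only [mem_union, mem_preimage, mem_ofPred_eq, not_or, not_not] at hc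
      exact hx (show ContinuousAt (fun y => g.symm (f.symm y)) x from
        ContinuousAt.comp (g := g.symm) (f := f.symm) hc.2 hc.1)
  one_mem' := by
    have h : {x : SS | ¬ ContinuousAt (fun x : SS => x) x} = ∅ := by
      ext x
      simp only [mem_ofPred_eq, mem_empty_iff_false, iff_false, not_not]
      exact continuousAt_id
    exact ⟨by show {x : SS | ¬ ContinuousAt (fun x : SS => x) x}.Finite; rw [h]; exact finite_empty,
      by show {x : SS | ¬ ContinuousAt (fun x : SS => x) x}.Finite; rw [h]; exact finite_empty⟩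
  inv_mem' := by
    rintro f ⟨hf, hf'⟩
    exact ⟨hf', hf⟩

theorem iet_le_PC : IETrep ≤ PChat := by
  have key : ∀ f : Equiv.Perm SS, f ∈ IETrep → {x | ¬ ContinuousAt f x}.Finite := by
    rintro f ⟨F, hF, hf⟩
    refine hF.subset ?_
    intro x hx
    by_contra hxF
    exact hx (hf x hxF).continuousAt
  intro f hf
  exact ⟨key f hf, key _ (IETrep.inv_mem hf)⟩

/-- Piecewise continuous permutations up to finite indeterminacy. -/
def PC : Type := PChat ⧸ FinS.subgroupOf PChat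

instance instGroupPC : Group PC := QuotientGroup.Quotient.group (FinS.subgroupOf PChat)

/-- The quotient map. -/
def pi : PChat →* PC := QuotientGroup.mk' (FinS.subgroupOf PChat)

/-- Realizable subgroups. -/
def Realizable (Γ : Subgroup PC) : Prop := ∃ L : Subgroup PChat, Set.BijOn pi L Γ

/-- The group of interval exchanges with flips, as a subgroup of `PC`. -/
def IETflip : Subgroup PC := (IETrep.subgroupOf PChat).map pi

theorem pi_eq {a b : PChat} (h : pi a = pi b) :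
    {x | (a : Equiv.Perm SS) x ≠ (b : Equiv.Perm SS) x}.Finite := by
  have h1 : a⁻¹ * b ∈ FinS.subgroupOf PChat := QuotientGroup.eq.mp h
  have h2 : {x | (a : Equiv.Perm SS)⁻¹ ((b : Equiv.Perm SS) x) ≠ x}.Finite := h1
  refine h2.subset ?_
  intro x hx hc
  apply hx
  rw [Equiv.Perm.inv_eq_iff_eq] at hc
  exact hc.symm

theorem pi_eq' {a b : PChat} (h : {x | (a : Equiv.Perm SS) x ≠ (b : Equiv.Perm SS) x}.Finite) :
    pi a = pi b := by
  refine QuotientGroup.eq.mpr ?_
  show {x | (a : Equiv.Perm SS)⁻¹ ((b : Equiv.Perm SS) x) ≠ x}.Finite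
  refine h.subset ?_
  intro x hx hc
  apply hx
  rw [Equiv.Perm.inv_eq_iff_eq]
  exact hc.symm

theorem Tp_iet : Tp ∈ IETrep := by
  refine ⟨{0, hh}, by simp, ?_⟩
  intro x hx
  simp only [mem_insert_iff, mem_singleton_iff, not_or] at hx
  refine ⟨0, Or.inr ?_⟩
  filter_upwards [isOpen_ne.mem_nhds hx.1, isOpen_ne.mem_nhds hx.2] with y h0 h1
  rw [Tp_eq h0 h1, Ng_apply, add_zero]

/-! ### Solvability -/

/-- Permutations lying over isometries for the doubling map. -/
def Hd : Subgroup (Equiv.Perm SS) where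
  carrier := {f | ∃ s w, ∀ x, f x + f x = tr s w (x + x)}
  mul_mem' := by
    rintro f g ⟨s, w, hf⟩ ⟨s', w', hg⟩
    obtain ⟨s'', w'', h⟩ := tr_tr s s' w w'
    refine ⟨s'', w'', fun x => ?_⟩
    show f (g x) + f (g x) = _
    rw [hf, hg, h]
  one_mem' := ⟨true, 0, fun x => by simp [tr_true]⟩
  inv_mem' := by
    rintro f ⟨s, w, hf⟩
    obtain ⟨s', w', h⟩ := tr_symm s w
    refine ⟨s', w', fun x => ?_⟩
    show f.symm x + f.symm x = _
    rw [← h, Homeomorph.eq_symm_apply, ← hf, Equiv.apply_symm_apply]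

def Hd1 : Subgroup (Equiv.Perm SS) where
  carrier := {f | ∃ w, ∀ x, f x + f x = x + x + w}
  mul_mem' := by
    rintro f g ⟨w, hf⟩ ⟨w', hg⟩
    refine ⟨w' + w, fun x => ?_⟩
    show f (g x) + f (g x) = _
    rw [hf, hg]
    abel
  one_mem' := ⟨0, fun x => by simp⟩
  inv_mem' := by
    rintro f ⟨w, hf⟩
    refine ⟨-w, fun x => ?_⟩
    show f.symm x + f.symm x = _
    have := hf (f.symm x)
    rw [Equiv.apply_symm_apply] at this
    rw [this]
    abel

def Hd2 : Subgroup (Equiv.Perm SS) where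
  carrier := {f | ∀ x, f x + f x = x + x}
  mul_mem' := by
    intro f g hf hg x
    show f (g x) + f (g x) = _
    rw [hf, hg]
  one_mem' := fun x => rfl
  inv_mem' := by
    intro f hf x
    show f.symm x + f.symm x = _
    have := hf (f.symm x)
    rw [Equiv.apply_symm_apply] at this
    exact this.symm

theorem inv_dbl {f : Equiv.Perm SS} {s : Bool} {w : SS} (hf : ∀ x, f x + f x = tr s w (x + x))
    (x : SS) : tr s w (f⁻¹ x + f⁻¹ x) = x + x := by
  rw [← hf]
  simp

theorem step1 (f g : Equiv.Perm SS) (hf : f ∈ Hd) (hg : g ∈ Hd) : ⁅f, g⁆ ∈ Hd1 := by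
  obtain ⟨s, w, hf⟩ := hf
  obtain ⟨s', w', hg⟩ := hg
  -- `D x = G (F u)` and `D (⁅f,g⁆ x) = F (G u)` with `u = D (f⁻¹ g⁻¹ x)`
  have e1 : ∀ x, tr s' w' (tr s w (f⁻¹ (g⁻¹ x) + f⁻¹ (g⁻¹ x))) = x + x := by
    intro x
    rw [inv_dbl hf, inv_dbl hg]
  have e2 : ∀ x, ⁅f, g⁆ x + ⁅f, g⁆ x =
      tr s w (tr s' w' (f⁻¹ (g⁻¹ x) + f⁻¹ (g⁻¹ x))) := by
    intro x
    show f (g (f⁻¹ (g⁻¹ x))) + f (g (f⁻¹ (g⁻¹ x))) = _
    rw [hf, hg]
  have e3 : ∃ v, ∀ u : SS, tr s w (tr s' w' u) = tr s' w' (tr s w u) + v := by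
    cases s <;> cases s'
    · refine ⟨w - w' + (w - w'), fun u => ?_⟩
      simp only [tr_false]
      abel
    · refine ⟨-w' - w', fun u => ?_⟩
      simp only [tr_false, tr_true]
      abel
    · refine ⟨w + w, fun u => ?_⟩
      simp only [tr_false, tr_true]
      abel
    · refine ⟨0, fun u => ?_⟩
      simp only [tr_true]
      abel
  obtain ⟨v, hv⟩ := e3
  refine ⟨v, fun x => ?_⟩
  rw [e2, hv, e1]

theorem step2 (f g : Equiv.Perm SS) (hf : f ∈ Hd1) (hg : g ∈ Hd1) : ⁅f, g⁆ ∈ Hd2 := by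
  obtain ⟨w, hf⟩ := hf
  obtain ⟨w', hg⟩ := hg
  intro x
  have e1 : (f⁻¹ (g⁻¹ x) + f⁻¹ (g⁻¹ x)) + w + w' = x + x := by
    have h1 : g⁻¹ x + g⁻¹ x = f⁻¹ (g⁻¹ x) + f⁻¹ (g⁻¹ x) + w := by
      have h := hf (f⁻¹ (g⁻¹ x))
      have e : f (f⁻¹ (g⁻¹ x)) = g⁻¹ x := f.apply_symm_apply _
      rwa [e] at h
    have h2 : x + x = g⁻¹ x + g⁻¹ x + w' := by
      have h := hg (g⁻¹ x)
      have e : g (g⁻¹ x) = x := g.apply_symm_apply _
      rwa [e] at h
    rw [← h1, ← h2]
  show f (g (f⁻¹ (g⁻¹ x))) + f (g (f⁻¹ (g⁻¹ x))) = _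
  rw [hf, hg, ← e1]
  abel

theorem hd2_cases {f : Equiv.Perm SS} (hf : f ∈ Hd2) (x : SS) : f x = x ∨ f x = x + hh := by
  have h1 : (f x - x) + (f x - x) = 0 := by
    have : (f x - x) + (f x - x) = (f x + f x) - (x + x) := by abel
    rw [this, hf x, sub_self]
  rcases two_torsion h1 with h | h
  · exact Or.inl (sub_eq_zero.mp h)
  · exact Or.inr (by rw [← h]; abel)

theorem hh_ne : hh ≠ 0 := by
  intro h
  have h1 := hb_add_hh 0
  rw [h, add_zero] at h1
  cases h2 : hb 0 <;> rw [h2] at h1 <;> simp at h1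

theorem hd2_add {f : Equiv.Perm SS} (hf : f ∈ Hd2) (x : SS) : f (x + hh) = f x + hh := by
  have hne : f (x + hh) ≠ f x := by
    intro h
    have h1 := f.injective h
    exact hh_ne (by simpa using h1)
  have e : x + hh + hh = x := by rw [add_assoc, hh_add_hh, add_zero]
  rcases hd2_cases hf x with h | h <;> rcases hd2_cases hf (x + hh) with h' | h'
  · rw [h, h']
  · rw [e] at h'
    exact absurd (h'.trans h.symm) hne
  · exact absurd (h'.trans h.symm) hne
  · rw [h, h']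

theorem step3 (f g : Equiv.Perm SS) (hf : f ∈ Hd2) (hg : g ∈ Hd2) : ⁅f, g⁆ = 1 := by
  rw [commutatorElement_eq_one_iff_mul_comm]
  ext x
  show f (g x) = g (f x)
  rcases hd2_cases hf x with h | h <;> rcases hd2_cases hg x with h' | h'
  · rw [h', h, h']
  · rw [h', hd2_add hf, h, h']
  · rw [h', h, hd2_add hg, h']
  · rw [h', h, hd2_add hf, hd2_add hg, h, h']

instance : Group.IsSolvable Hd := by
  refine ⟨⟨3, ?_⟩⟩
  have h1 : derivedSeries Hd 1 ≤ Hd1.subgroupOf Hd := by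
    rw [derivedSeries_succ, Subgroup.commutator_le]
    intro f _ g _
    exact step1 f g f.2 g.2
  have h2 : derivedSeries Hd 2 ≤ Hd2.subgroupOf Hd := by
    rw [derivedSeries_succ, Subgroup.commutator_le]
    intro f hf g hg
    exact step2 f g (h1 hf) (h1 hg)
  rw [eq_bot_iff, derivedSeries_succ, Subgroup.commutator_le]
  intro f hf g hg
  rw [Subgroup.mem_bot]
  exact Subtype.ext (step3 f g (h2 hf) (h2 hg))

/-! ### The group -/

def eR (c : SS) : PChat := ⟨Rt c, iet_le_PC (Rt_iet c)⟩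
noncomputable def eP (c : SS) : PChat := ⟨Rp c, iet_le_PC (Rp_iet c)⟩
def eN : PChat := ⟨Ng, iet_le_PC Ng_iet⟩
noncomputable def eT : PChat := ⟨Tp, iet_le_PC Tp_iet⟩

theorem pi_eN : pi eN = pi eT := by
  refine pi_eq' ?_
  refine (show ({0, hh} : Set SS).Finite by simp).subset ?_
  intro x hx
  by_contra hc
  simp only [mem_insert_iff, mem_singleton_iff, not_or] at hc
  exact hx (Tp_eq hc.1 hc.2).symm

/-- The generators. -/
def gens (c d : SS) : Set PC := {pi (eR c), pi (eR d), pi (eP c), pi (eP d), pi eN}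

/-- The group. -/
def Gam (c d : SS) : Subgroup PC := Subgroup.closure (gens c d)

theorem gam_iet (c d : SS) : Gam c d ≤ IETflip := by
  rw [Gam, Subgroup.closure_le]
  rintro x (rfl | rfl | rfl | rfl | rfl)
  · exact ⟨eR c, Rt_iet c, rfl⟩
  · exact ⟨eR d, Rt_iet d, rfl⟩
  · exact ⟨eP c, Rp_iet c, rfl⟩
  · exact ⟨eP d, Rp_iet d, rfl⟩
  · exact ⟨eN, Ng_iet, rfl⟩

theorem gam_fg (c d : SS) : (Gam c d).FG :=
  (Subgroup.fg_iff _).mpr ⟨gens c d, rfl, by unfold gens; simp⟩

theorem gam_le (c d : SS) : Gam c d ≤ (Hd.subgroupOf PChat).map pi := by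
  have hR : ∀ c, Rt c ∈ Hd := fun c => ⟨true, c + c, fun x => by
    rw [Rt_apply, tr_true]; abel⟩
  have hP : ∀ c, Rp c ∈ Hd := fun c => ⟨true, c + c, fun x => by
    rw [Rp_dbl, tr_true]⟩
  have hN : Ng ∈ Hd := ⟨false, 0, fun x => by
    rw [Ng_apply, tr_false]; abel⟩
  rw [Gam, Subgroup.closure_le]
  rintro x (rfl | rfl | rfl | rfl | rfl)
  · exact ⟨eR c, hR c, rfl⟩
  · exact ⟨eR d, hR d, rfl⟩
  · exact ⟨eP c, hP c, rfl⟩
  · exact ⟨eP d, hP d, rfl⟩
  · exact ⟨eN, hN, rfl⟩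

theorem gam_solvable (c d : SS) : Group.IsSolvable (Gam c d) := by
  have h1 : Group.IsSolvable (Hd.subgroupOf PChat) := by
    let φ : Hd.subgroupOf PChat →* Hd :=
      { toFun := fun f => ⟨f.1.1, f.2⟩
        map_one' := rfl
        map_mul' := fun _ _ => rfl }
    refine Group.isSolvable_of_isSolvable_injective (f := φ) ?_
    intro a b h
    exact Subtype.ext (Subtype.ext (congrArg (fun z : Hd => (z : Equiv.Perm SS)) h))
  have h2 : Group.IsSolvable ((Hd.subgroupOf PChat).map pi) :=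
    Group.isSolvable_of_surjective (pi.subgroupMap_surjective (Hd.subgroupOf PChat))
  exact Group.isSolvable_of_isSolvable_injective (Subgroup.inclusion_injective (gam_le c d))

theorem gam_not {c d : SS} (hcd : Indep c d) : ¬ Realizable (Gam c d) := by
  rintro ⟨L, hmap, hinj, hsurj⟩
  have hg : ∀ x ∈ gens c d, ∃ l ∈ L, pi l = x := fun x hx =>
    hsurj (Subgroup.subset_closure hx)
  obtain ⟨r, hr, hrp⟩ := hg (pi (eR c)) (by simp [gens])
  obtain ⟨s, hs, hsp⟩ := hg (pi (eR d)) (by simp [gens])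
  obtain ⟨r', hr', hrp'⟩ := hg (pi (eP c)) (by simp [gens])
  obtain ⟨s', hs', hsp'⟩ := hg (pi (eP d)) (by simp [gens])
  obtain ⟨u, hu, hup⟩ := hg (pi eN) (by simp [gens])
  have K1 : r * s = s * r := hinj (L.mul_mem hr hs) (L.mul_mem hs hr) (by
    rw [map_mul, map_mul, hrp, hsp, ← map_mul, ← map_mul]
    exact congrArg pi (Subtype.ext (Rt_comm c d)))
  have K2 : u * r * u⁻¹ = r⁻¹ := hinj (L.mul_mem (L.mul_mem hu hr) (L.inv_mem hu))
    (L.inv_mem hr) (by
    rw [map_mul, map_mul, map_inv, map_inv, hrp, hup, ← map_inv, ← map_inv, ← map_mul,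
      ← map_mul]
    exact congrArg pi (Subtype.ext (Ng_Rt c)))
  have K1' : r' * s' = s' * r' := hinj (L.mul_mem hr' hs') (L.mul_mem hs' hr') (by
    rw [map_mul, map_mul, hrp', hsp', ← map_mul, ← map_mul]
    exact congrArg pi (Subtype.ext (Rp_comm c d)))
  have K2' : u * r' * u⁻¹ = r'⁻¹ := hinj (L.mul_mem (L.mul_mem hu hr') (L.inv_mem hu))
    (L.inv_mem hr') (by
    rw [map_mul, map_mul, map_inv, map_inv, hrp', hup, pi_eN, ← map_inv, ← map_inv, ← map_mul,
      ← map_mul]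
    exact congrArg pi (Subtype.ext (Tp_Rp c)))
  have F1 := pi_eq hrp
  have F2 := pi_eq hsp
  have F1' := pi_eq hrp'
  have F2' := pi_eq hsp'
  have F3 := pi_eq hup
  have F3' := pi_eq (hup.trans pi_eN)
  have HS : Sys (Rt c) (Rt d) Ng := ⟨Rt_comm c d, Ng_Rt c⟩
  have HS' : Sys (Rp c) (Rp d) Tp := ⟨Rp_comm c d, Tp_Rp c⟩
  have KS : Sys (r : Equiv.Perm SS) (s : Equiv.Perm SS) (u : Equiv.Perm SS) :=
    ⟨congrArg Subtype.val K1, congrArg Subtype.val K2⟩
  have KS' : Sys (r' : Equiv.Perm SS) (s' : Equiv.Perm SS) (u : Equiv.Perm SS) :=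
    ⟨congrArg Subtype.val K1', congrArg Subtype.val K2'⟩
  have hE := ((((F1.union F2).union F1').union F2').union F3).union F3'
  have hx : ∀ {A : Set SS} {a b : SS → SS}, {x | a x ≠ b x} ⊆ A → ∀ x, x ∉ A → a x = b x := by
    intro A a b h x hxA
    by_contra hc
    exact hxA (h hc)
  refine no_two HS KS HS' KS' (fun i j x => Rt_free hcd i j x) (fun i j x => Rp_free hcd i j x)
    hE (hx ?_) (hx ?_) (hx ?_) (hx ?_) (hx ?_) (hx ?_) 0 (by rw [Ng_apply, neg_zero]) Tp_ne
  · intro x h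
    exact Or.inl (Or.inl (Or.inl (Or.inl (Or.inl h))))
  · intro x h
    exact Or.inl (Or.inl (Or.inl (Or.inl (Or.inr h))))
  · intro x h
    exact Or.inl (Or.inr h)
  · intro x h
    exact Or.inl (Or.inl (Or.inl (Or.inr h)))
  · intro x h
    exact Or.inl (Or.inl (Or.inr h))
  · intro x h
    exact Or.inr h

theorem main : ∃ Γ : Subgroup PC, Γ ≤ IETflip ∧ Γ.FG ∧ Group.IsSolvable Γ ∧ ¬ Realizable Γ := by
  obtain ⟨c, d, h⟩ := exists_indep
  exact ⟨Gam c d, gam_iet c d, gam_fg c d, gam_solvable c d, gam_not h⟩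

end Pool.Agent.Q297.SO
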