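import Mathlib

/-!
Rigidity of free actions of `ℤ² ⋊ {±1}` under finite modifications of the generators.
-/

namespace Pool.Agent.Q297.SO

variable {X : Type*}

/-- The relations of `ℤ² ⋊ {±1}`. -/
structure Sys (c d t : Equiv.Perm X) : Prop where
  comm : c * d = d * c
  tc : t * c * t⁻¹ = c⁻¹

theorem zz (f : Equiv.Perm X) (a b : ℤ) (x : X) : (f ^ a) ((f ^ b) x) = (f ^ (a + b)) x := by
  rw [← Equiv.Perm.mul_apply, ← zpow_add]

theorem walk {c r : Equiv.Perm X} {E : Set X} (h1 : ∀ x, x ∉ E → r x = c x) {y : X}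
    (hy : ∀ i : ℕ, (c ^ i) y ∉ E) (M : ℕ) : (r ^ M) y = (c ^ M) y := by
  induction M with
  | zero => simp
  | succ M ih =>
    rw [pow_succ', pow_succ', Equiv.Perm.mul_apply, Equiv.Perm.mul_apply, ih]
    exact h1 _ (hy M)

theorem walkneg {c r : Equiv.Perm X} {E : Set X} (h1 : ∀ x, x ∉ E → r x = c x) {y : X}
    (hy : ∀ i : ℕ, (c⁻¹ ^ (i + 1)) y ∉ E) (M : ℕ) : (r⁻¹ ^ M) y = (c⁻¹ ^ M) y := by
  induction M with
  | zero => simp
  | succ M ih =>
    have h2 := hy M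
    rw [pow_succ', Equiv.Perm.mul_apply] at h2
    rw [pow_succ', pow_succ', Equiv.Perm.mul_apply, Equiv.Perm.mul_apply, ih]
    rw [Equiv.Perm.inv_eq_iff_eq, h1 _ h2]
    simp

theorem walkz {c r : Equiv.Perm X} {E : Set X} (h1 : ∀ x, x ∉ E → r x = c x) {y : X}
    (hy : ∀ i : ℤ, (c ^ i) y ∉ E) (M : ℤ) : (r ^ M) y = (c ^ M) y := by
  obtain ⟨n, rfl | rfl⟩ := M.eq_nat_or_neg
  · rw [zpow_natCast, zpow_natCast]
    exact walk h1 (fun i => by have := hy i; rwa [zpow_natCast] at this) n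
  · rw [zpow_neg, zpow_neg, zpow_natCast, zpow_natCast, ← inv_pow, ← inv_pow]
    refine walkneg h1 (fun i => ?_) n
    have := hy (-((i + 1 : ℕ) : ℤ))
    rwa [zpow_neg, zpow_natCast, ← inv_pow] at this

section
variable {c d t r s u : Equiv.Perm X} (H : Sys c d t) (K : Sys r s u)
  (free : ∀ (i j : ℤ) (x : X), (c ^ i) ((d ^ j) x) = x → i = 0 ∧ j = 0)
  {E : Set X} (hE : E.Finite) (h1 : ∀ x, x ∉ E → r x = c x) (h2 : ∀ x, x ∉ E → s x = d x)
  (h3 : ∀ x, x ∉ E → u x = t x)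

include H in
theorem cz (i j : ℤ) (x : X) : (c ^ i) ((d ^ j) x) = (d ^ j) ((c ^ i) x) := by
  have h : Commute c d := H.comm
  have h' : (c ^ i) * (d ^ j) = (d ^ j) * (c ^ i) := (h.zpow_zpow i j)
  have := congrArg (fun f : Equiv.Perm X => f x) h'
  exact this

include H in
theorem tz (i : ℤ) (x : X) : t ((c ^ i) x) = (c ^ (-i)) (t x) := by
  have h' : t * c ^ i * t⁻¹ = c ^ (-i) := by
    rw [← conj_zpow, H.tc, inv_zpow, zpow_neg]
  have := congrArg (fun f : Equiv.Perm X => f (t x)) h'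
  simpa using this

include H free hE in
theorem avoid (y : X) : ∃ N : ℕ, ∀ i j : ℤ, ((N : ℤ) ≤ |i| ∨ (N : ℤ) ≤ |j|) →
    (c ^ i) ((d ^ j) y) ∉ E := by
  let F : ℤ × ℤ → X := fun p => (c ^ p.1) ((d ^ p.2) y)
  have hF : Function.Injective F := by
    rintro ⟨i, j⟩ ⟨i', j'⟩ h
    have h4 : (c ^ i) ((d ^ j) y) = (c ^ i') ((d ^ j') y) := h
    have h5 : (c ^ (i - i')) ((d ^ (j - j')) ((d ^ j') y)) = (d ^ j') y := by
      have e1 : (d ^ (j - j')) ((d ^ j') y) = (d ^ j) y := by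
        rw [← Equiv.Perm.mul_apply, ← zpow_add]
        congr 2
        ring
      rw [e1]
      have e2 : (c ^ (i - i')) ((d ^ j) y) = (c ^ (-i')) ((c ^ i) ((d ^ j) y)) := by
        rw [zz]
        congr 2
        ring
      rw [e2, h4, zz]
      simp
    have h6 := free _ _ _ h5
    ext
    · simp only
      omega
    · simp only
      omega
  have hfin : (F ⁻¹' E).Finite := hE.preimage hF.injOn
  obtain ⟨N, hN⟩ := (hfin.image (fun p : ℤ × ℤ => p.1.natAbs + p.2.natAbs)).bddAbove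
  refine ⟨N + 1, fun i j hij hmem => ?_⟩
  have h4 : i.natAbs + j.natAbs ≤ N := hN ⟨(i, j), hmem, rfl⟩
  rcases hij with h | h
  · have : (i.natAbs : ℤ) = |i| := Int.natCast_natAbs i
    omega
  · have : (j.natAbs : ℤ) = |j| := Int.natCast_natAbs j
    omega

include H K h1 h2 in
theorem key {y : X} {N : ℕ} (hN : ∀ i j : ℤ, ((N : ℤ) ≤ |i| ∨ (N : ℤ) ≤ |j|) →
    (c ^ i) ((d ^ j) y) ∉ E) {M L : ℤ} (hM : (N : ℤ) ≤ |M|) (hL : (N : ℤ) ≤ |L|) :
    (r ^ (-M)) ((c ^ M) y) = (s ^ (-L)) ((d ^ L) y) := by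
  have e1 : (s ^ L) ((c ^ M) y) = (d ^ L) ((c ^ M) y) := by
    refine walkz h2 (fun j => ?_) L
    rw [← cz H]
    exact hN M j (Or.inl hM)
  have e2 : (r ^ (-M)) ((c ^ M) ((d ^ L) y)) = (d ^ L) y := by
    rw [walkz h1 (fun i => ?_) (-M)]
    · rw [← Equiv.Perm.mul_apply, ← zpow_add]
      simp
    · rw [← Equiv.Perm.mul_apply, ← zpow_add]
      exact hN _ L (Or.inr hL)
  have e3 : (s ^ L) ((r ^ (-M)) ((c ^ M) y)) = (d ^ L) y := by
    rw [← cz K, e1, ← cz H, e2]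
  rw [← e3, zz]
  simp

include H K free hE h1 h2 h3 in
theorem rigid : ∃ h : X → X, Function.Surjective h ∧ Function.Injective h ∧
    ∀ x, u (h x) = h (t x) := by
  choose N hN using avoid H free hE
  let h : X → X := fun y => (s ^ (-(N y : ℤ))) ((d ^ (N y : ℤ)) y)
  have hh : ∀ y (M : ℤ), (N y : ℤ) ≤ |M| → (r ^ (-M)) ((c ^ M) y) = h y := by
    intro y M hM
    exact key H K h1 h2 (hN y) hM (le_abs_self _)
  have hinj : Function.Injective h := by
    intro x y hxy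
    have e1 := hh x (max (N x) (N y) : ℤ) (le_trans (le_max_left _ _) (le_abs_self _))
    have e2 := hh y (max (N x) (N y) : ℤ) (le_trans (le_max_right _ _) (le_abs_self _))
    rw [hxy, ← e2] at e1
    exact (c ^ _).injective ((r ^ _).injective e1)
  -- `h` is the identity outside a finite set
  have hfin : {x | h x ≠ x}.Finite := by
    obtain ⟨B, hB⟩ := (hE.image N).bddAbove
    have hB' : ∀ e ∈ E, ∀ n : ℤ, (B : ℤ) ≤ |n| → (c ^ n) e ∉ E := by
      intro e he n hn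
      have h4 : N e ≤ B := hB ⟨e, he, rfl⟩
      have h5 := hN e n 0 (Or.inl (by omega))
      simpa using h5
    refine (Set.Finite.biUnion (Set.finite_lt_nat B)
      (fun i _ => hE.image (fun e => (c⁻¹ ^ i) e))).subset ?_
    intro x hx
    have hi : ∃ i : ℕ, (c ^ i) x ∈ E := by
      by_contra hc
      push Not at hc
      apply hx
      rw [← hh x (N x) (le_abs_self _), zpow_neg, zpow_natCast, zpow_natCast,
        ← walk h1 hc]
      simp
    have hj : ∃ j : ℕ, (c⁻¹ ^ (j + 1)) x ∈ E := by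
      by_contra hc
      push Not at hc
      apply hx
      have e1 := hh x (-(N x : ℤ)) (by rw [abs_neg]; exact le_abs_self _)
      rw [neg_neg, zpow_neg, zpow_natCast, zpow_natCast, ← inv_pow, ← walkneg h1 hc] at e1
      rw [← e1, inv_pow]
      simp
    obtain ⟨i, hi⟩ := hi
    obtain ⟨j, hj⟩ := hj
    have e1 : (c ^ (-((i + j + 1 : ℕ) : ℤ))) ((c ^ i) x) ∈ E := by
      have : (c ^ (-((i + j + 1 : ℕ) : ℤ))) ((c ^ i) x) = (c⁻¹ ^ (j + 1)) x := by
        rw [← zpow_natCast c i, ← Equiv.Perm.mul_apply, ← zpow_add, inv_pow,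
          ← zpow_natCast c (j + 1), ← zpow_neg]
        congr 2
        push_cast
        ring
      rw [this]
      exact hj
    have e2 : ((i + j + 1 : ℕ) : ℤ) < B := by
      by_contra hc
      refine hB' _ hi _ ?_ e1
      rw [abs_neg, abs_of_nonneg (by positivity)]
      omega
    refine Set.mem_biUnion (show i ∈ {n | n < B} by simp only [Set.mem_ofPred_eq]; omega) ?_
    refine ⟨(c ^ i) x, hi, ?_⟩
    show (c⁻¹ ^ i) ((c ^ i) x) = x
    rw [inv_pow]
    simp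
  have hsurj : Function.Surjective h := by
    have hmaps : Set.MapsTo h {x | h x ≠ x} {x | h x ≠ x} := by
      intro x hx hc
      exact hx (hinj hc)
    have hbij := (hfin.injOn_iff_bijOn_of_mapsTo hmaps).mp hinj.injOn
    intro y
    by_cases hy : h y = y
    · exact ⟨y, hy⟩
    · obtain ⟨x, _, hx⟩ := hbij.surjOn hy
      exact ⟨x, hx⟩
  refine ⟨h, hsurj, hinj, fun x => ?_⟩
  -- choose `M` large for `x` and for `t x`
  obtain ⟨M, hM1, hM2⟩ : ∃ M : ℤ, (N x : ℤ) ≤ |M| ∧ (N (t x) : ℤ) ≤ |M| :=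
    ⟨(max (N x) (N (t x)) : ℤ), le_trans (le_max_left _ _) (le_abs_self _),
      le_trans (le_max_right _ _) (le_abs_self _)⟩
  have e1 := hh x M hM1
  have e2 := hh (t x) (-M) (by rw [abs_neg]; exact hM2)
  have e3 : (c ^ M) x ∉ E := by
    have := hN x M 0 (Or.inl hM1)
    simpa using this
  rw [← e1, tz K, h3 _ e3, tz H, ← e2]

end

/-- The contradiction: a permutation cannot be modelled both on an involution with a fixed
point and on one without. -/
theorem no_two {c d t c' d' t' r s u r' s' : Equiv.Perm X}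
    (H : Sys c d t) (K : Sys r s u) (H' : Sys c' d' t') (K' : Sys r' s' u)
    (free : ∀ (i j : ℤ) (x : X), (c ^ i) ((d ^ j) x) = x → i = 0 ∧ j = 0)
    (free' : ∀ (i j : ℤ) (x : X), (c' ^ i) ((d' ^ j) x) = x → i = 0 ∧ j = 0)
    {E : Set X} (hE : E.Finite) (h1 : ∀ x, x ∉ E → r x = c x) (h2 : ∀ x, x ∉ E → s x = d x)
    (h3 : ∀ x, x ∉ E → u x = t x) (h1' : ∀ x, x ∉ E → r' x = c' x)
    (h2' : ∀ x, x ∉ E → s' x = d' x) (h3' : ∀ x, x ∉ E → u x = t' x)
    (x0 : X) (hx0 : t x0 = x0) (hno : ∀ x, t' x ≠ x) : False := by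
  obtain ⟨h, _, _, hh⟩ := rigid H K free hE h1 h2 h3
  obtain ⟨g, gs, gi, hg⟩ := rigid H' K' free' hE h1' h2' h3'
  obtain ⟨y, hy⟩ := gs (h x0)
  have e1 : u (h x0) = h x0 := by rw [hh, hx0]
  rw [← hy, hg] at e1
  exact hno y (gi e1)

end Pool.Agent.Q297.SO
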